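import Mathlib

/-!
# A two-colouring of the positive reals all of whose distance-monochromatic sets are countable

Let `B` be a Hamel basis of `ℝ` over `ℚ`, well-ordered by `≺`. A number `v` is coloured `1` if the
`≺`-last element `T` of its support has a unique nearest neighbour (on the real line) among the other
elements of the support, and this neighbour is smaller than `T`. On an uncountable set `X`, after
subtracting a constant, one finds uncountably many `x` whose `≺`-last support elements `t x` are
different and lie in a small ball that the other support elements avoid by far. Then the colour of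
`x - y` says whether `≺` and `<` agree on `{t x, t y}`, so that a monochromatic set would give an
uncountable set of reals well-ordered by `<` or `>`.
-/

set_option autoImplicit false

namespace Pool.Agent.Results.MP_a23160_lc.IsometricColoring

open Set

/-- Index set of a Hamel basis of the reals (a set of reals). -/
abbrev I : Set ℝ := Module.Basis.ofVectorSpaceIndex ℚ ℝ

/-- A Hamel basis of the reals. -/
noncomputable abbrev B : Module.Basis I ℚ ℝ := Module.Basis.ofVectorSpace ℚ ℝ

/-- A well-order of the basis. -/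
abbrev R : I → I → Prop := WellOrderingRel

/-- The colouring of the finite subsets of the basis. -/
def Good (s : Finset I) : Prop :=
  ∃ T ∈ s, (∀ q ∈ s, q ≠ T → R q T) ∧
    ∃ p ∈ s, (p : ℝ) < T ∧ ∀ q ∈ s, q ≠ T → q ≠ p → |(T : ℝ) - p| < |(T : ℝ) - q|

open Classical in
/-- The colouring of the reals. -/
noncomputable def f (v : ℝ) : Fin 2 := if Good (B.repr v).support then 1 else 0

theorem f_neg (v : ℝ) : f (-v) = f v := by
  unfold f
  rw [map_neg, Finsupp.support_neg]

theorem f_abs (v : ℝ) : f |v| = f v := by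
  rcases abs_choice v with h | h
  · rw [h]
  · rw [h, f_neg]

/-- A set of reals well-ordered by `<` is countable. -/
theorem countable_of_wf (Y : Set ℝ) (r : ℝ → ℝ → Prop) (hr : WellFounded r)
    (h : ∀ x ∈ Y, ∀ y ∈ Y, x < y → r x y) : Y.Countable := by
  classical
  -- `Y` is well-founded for `<`
  have hwf : ∀ Z : Set ℝ, Z ⊆ Y → Z.Nonempty → ∃ m ∈ Z, ∀ z ∈ Z, m ≤ z := by
    intro Z hZ hne
    obtain ⟨m, hm, hmin⟩ := hr.has_min Z hne
    refine ⟨m, hm, fun z hz => ?_⟩
    by_contra hlt
    exact hmin z hz (h z (hZ hz) m (hZ hm) (not_le.1 hlt))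
  -- successor function
  have hsucc : ∀ x, ∃ y, x < y ∧ ∀ z ∈ Y, x < z → y ≤ z := by
    intro x
    by_cases hne : (Y ∩ Ioi x).Nonempty
    · obtain ⟨m, hm, hmin⟩ := hwf (Y ∩ Ioi x) inter_subset_left hne
      exact ⟨m, hm.2, fun z hz hxz => hmin z ⟨hz, hxz⟩⟩
    · refine ⟨x + 1, by linarith, fun z hz hxz => ?_⟩
      exact absurd ⟨z, hz, hxz⟩ hne
  choose y hy hy' using hsucc
  refine Set.PairwiseDisjoint.countable_of_Ioo (y := y) ?_ (fun x _ => hy x)
  intro a ha b hb hab
  rw [Function.onFun, Set.disjoint_left]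
  rintro z ⟨h1, h2⟩ ⟨h3, h4⟩
  rcases lt_or_gt_of_ne hab with hlt | hlt
  · have := hy' a b hb hlt
    linarith
  · have := hy' b a ha hlt
    linarith

/-- A set of reals well-ordered by `>` is countable. -/
theorem countable_of_wf' (Y : Set ℝ) (r : ℝ → ℝ → Prop) (hr : WellFounded r)
    (h : ∀ x ∈ Y, ∀ y ∈ Y, y < x → r x y) : Y.Countable := by
  have h1 : ((fun x : ℝ => -x) '' Y).Countable := by
    refine countable_of_wf _ (fun x y => r (-x) (-y)) (InvImage.wf (fun x : ℝ => -x) hr) ?_
    rintro _ ⟨x, hx, rfl⟩ _ ⟨y, hy, rfl⟩ hxy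
    simp only [neg_neg]
    exact h x hx y hy (by simpa using hxy)
  have h2 := h1.image (fun x : ℝ => -x)
  have h3 : (fun x : ℝ => -x) '' ((fun x : ℝ => -x) '' Y) = Y := by
    rw [← Set.image_comp]
    ext x; simp
  rwa [h3] at h2

/-- The `≺`-last element of a nonempty finite set. -/
theorem exists_top (s : Finset I) (hs : s.Nonempty) : ∃ T ∈ s, ∀ q ∈ s, q ≠ T → R q T := by
  classical
  induction hs using Finset.Nonempty.cons_induction with
  | singleton a => exact ⟨a, by simp, by simp⟩
  | cons a s ha hs ih =>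
    obtain ⟨T, hT, hmax⟩ := ih
    rcases trichotomous_of R a T with h | h | h
    · refine ⟨T, by simp [hT], fun q hq hqT => ?_⟩
      rcases Finset.mem_cons.1 hq with rfl | hq
      · exact h
      · exact hmax q hq hqT
    · exact absurd (h ▸ hT) ha
    · refine ⟨a, by simp, fun q hq hqa => ?_⟩
      rcases Finset.mem_cons.1 hq with rfl | hq
      · exact absurd rfl hqa
      · by_cases hqT : q = T
        · rw [hqT]; exact h
        · exact trans_of R (hmax q hq hqT) h

/-- If the tops are different and lie in a ball avoided by far by the other support elements, the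
colour of the difference says whether the two orders agree. -/
theorem good_iff {x y : ℝ} {tx ty : I} {q r : ℝ}
    (hx : tx ∈ (B.repr x).support) (hx' : ∀ s ∈ (B.repr x).support, s ≠ tx → R s tx)
    (hy : ty ∈ (B.repr y).support) (hy' : ∀ s ∈ (B.repr y).support, s ≠ ty → R s ty)
    (hxy : R tx ty) (hqx : |(tx : ℝ) - q| < r) (hqy : |(ty : ℝ) - q| < r)
    (hfx : ∀ s ∈ (B.repr x).support, s ≠ tx → 3 * r ≤ |(s : ℝ) - q|)
    (hfy : ∀ s ∈ (B.repr y).support, s ≠ ty → 3 * r ≤ |(s : ℝ) - q|) :
    Good (B.repr (x - y)).support ↔ (tx : ℝ) < ty := by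
  have hne : tx ≠ ty := by
    rintro rfl
    exact irrefl_of R _ hxy
  have hrpos : 0 < r := lt_of_le_of_lt (abs_nonneg _) hqx
  have hxty : B.repr x ty = 0 := by
    by_contra h
    have h1 := hx' ty (Finsupp.mem_support_iff.2 h) (Ne.symm hne)
    exact asymm_of R h1 hxy
  have hytx : B.repr y tx = 0 := by
    by_contra h
    have h1 := hfy tx (Finsupp.mem_support_iff.2 h) hne
    linarith
  have hmtx : tx ∈ (B.repr (x - y)).support := by
    rw [Finsupp.mem_support_iff, map_sub, Finsupp.sub_apply, hytx, sub_zero]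
    exact Finsupp.mem_support_iff.1 hx
  have hmty : ty ∈ (B.repr (x - y)).support := by
    rw [Finsupp.mem_support_iff, map_sub, Finsupp.sub_apply, hxty, zero_sub, neg_ne_zero]
    exact Finsupp.mem_support_iff.1 hy
  have hmem : ∀ s ∈ (B.repr (x - y)).support,
      s ∈ (B.repr x).support ∨ s ∈ (B.repr y).support := by
    intro s hs
    rw [Finsupp.mem_support_iff, map_sub, Finsupp.sub_apply] at hs
    by_contra hcon
    simp only [Finsupp.mem_support_iff, not_or, not_not] at hcon
    exact hs (by rw [hcon.1, hcon.2, sub_zero])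
  have htop : ∀ s ∈ (B.repr (x - y)).support, s ≠ ty → R s ty := by
    intro s hs hsty
    rcases hmem s hs with h | h
    · by_cases hs' : s = tx
      · rw [hs']; exact hxy
      · exact trans_of R (hx' s h hs') hxy
    · exact hy' s h hsty
  have hfar : ∀ s ∈ (B.repr (x - y)).support, s ≠ ty → s ≠ tx → |(ty : ℝ) - tx| < |(ty : ℝ) - s| := by
    intro s hs hsty hstx
    have h1 : 3 * r ≤ |(s : ℝ) - q| := by
      rcases hmem s hs with h | h
      · exact hfx s h hstx
      · exact hfy s h hsty
    have h2 : |(ty : ℝ) - tx| < 2 * r := by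
      have := abs_sub_le (ty : ℝ) q tx
      rw [abs_sub_comm q] at this
      linarith
    have h3 : |(s : ℝ) - q| ≤ |(s : ℝ) - ty| + |(ty : ℝ) - q| := abs_sub_le _ _ _
    rw [abs_sub_comm (s : ℝ) ty] at h3
    linarith
  constructor
  · rintro ⟨T, hT, hTtop, p, hp, hpT, hnear⟩
    have hTty : T = ty := by
      by_contra h
      exact asymm_of R (htop T hT h) (hTtop ty hmty (Ne.symm h))
    subst hTty
    have hptx : p = tx := by
      by_contra h
      have hpT' : p ≠ T := by
        rintro rfl
        exact lt_irrefl _ hpT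
      have h1 := hnear tx hmtx hne (Ne.symm h)
      have h2 := hfar p hp hpT' h
      linarith
    rw [← hptx]; exact hpT
  · intro hlt
    exact ⟨ty, hmty, htop, tx, hmtx, hlt, hfar⟩

/-- Choice of a rational ball. -/
theorem exists_ball (s : Finset I) (t : I) : ∃ q r : ℚ, |(t : ℝ) - q| < r ∧
    ∀ u ∈ s, u ≠ t → 3 * (r : ℝ) ≤ |(u : ℝ) - q| := by
  classical
  obtain ⟨ε, hε, hεs⟩ : ∃ ε : ℝ, 0 < ε ∧ ∀ u ∈ s, u ≠ t → ε ≤ |(u : ℝ) - t| := by
    induction s using Finset.induction_on with
    | empty => exact ⟨1, one_pos, by simp⟩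
    | insert a s ha ih =>
      obtain ⟨ε, hε, h⟩ := ih
      by_cases hat : a = t
      · refine ⟨ε, hε, fun u hu hut => ?_⟩
        rcases Finset.mem_insert.1 hu with rfl | hu
        · exact absurd hat hut
        · exact h u hu hut
      · have hpos : 0 < |(a : ℝ) - t| := abs_pos.2 (sub_ne_zero.2 fun h => hat (Subtype.ext h))
        refine ⟨min ε |(a : ℝ) - t|, lt_min hε hpos, fun u hu hut => ?_⟩
        rcases Finset.mem_insert.1 hu with rfl | hu
        · exact min_le_right _ _
        · exact (min_le_left _ _).trans (h u hu hut)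
  obtain ⟨r, hr0, hr⟩ : ∃ r : ℚ, (0 : ℝ) < r ∧ (r : ℝ) < ε / 4 :=
    exists_rat_btwn (by linarith)
  obtain ⟨q, hq1, hq2⟩ : ∃ q : ℚ, (t : ℝ) - r < q ∧ (q : ℝ) < t := exists_rat_btwn (by linarith)
  have h1 : |(t : ℝ) - q| < r := by
    rw [abs_lt]; constructor <;> linarith
  refine ⟨q, r, h1, fun u hu hut => ?_⟩
  have h2 := hεs u hu hut
  have h3 : |(u : ℝ) - t| ≤ |(u : ℝ) - q| + |(q : ℝ) - t| := abs_sub_le _ _ _
  rw [abs_sub_comm (q : ℝ) t] at h3
  linarith

/-- Pigeonhole: an uncountable set has an uncountable fibre over a countable type. -/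
theorem exists_fibre {α β : Type*} [Countable β] {X : Set α} (hX : ¬ X.Countable) (g : α → β) :
    ∃ b, ¬ (X ∩ g ⁻¹' {b}).Countable := by
  by_contra h
  push Not at h
  apply hX
  have : X = ⋃ b, X ∩ g ⁻¹' {b} := by
    ext x; simp
  rw [this]
  exact Set.countable_iUnion h

/-- The main induction. -/
theorem main (n : ℕ) : ∀ X : Set ℝ, (∀ x ∈ X, (B.repr x).support.card ≤ n) →
    ∀ c : Fin 2, (∀ x ∈ X, ∀ y ∈ X, x ≠ y → f (x - y) = c) → X.Countable := by
  classical
  induction n with
  | zero =>
    intro X hX c _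
    refine (Set.countable_singleton (0 : ℝ)).mono fun x hx => ?_
    have h1 := hX x hx
    have h2 : B.repr x = 0 := by
      rw [← Finsupp.support_eq_empty, ← Finset.card_eq_zero]
      omega
    have h3 : x = 0 := by simpa using h2
    simpa using h3
  | succ n ih =>
    intro X hXn c hc
    by_contra hX
    -- remove zero
    have hX1 : ¬ (X \ {0}).Countable := by
      intro h
      apply hX
      exact (h.union (Set.countable_singleton (0 : ℝ))).mono (by
        intro x hx
        by_cases h0 : x = 0
        · right; simp [h0]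
        · left; exact ⟨hx, by simpa using h0⟩)
    have htop : ∀ x : ℝ, ∃ t : I, x ≠ 0 →
        t ∈ (B.repr x).support ∧ ∀ s ∈ (B.repr x).support, s ≠ t → R s t := by
      intro x
      by_cases h0 : x = 0
      · have : Nonempty I := B.index_nonempty
        exact ⟨Classical.choice this, fun h => absurd h0 h⟩
      · have h1 : (B.repr x).support.Nonempty := by
          rw [Finset.nonempty_iff_ne_empty, Ne, Finsupp.support_eq_empty]
          simpa using h0
        obtain ⟨T, hT, hT'⟩ := exists_top _ h1
        exact ⟨T, fun _ => ⟨hT, hT'⟩⟩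
    choose t ht using htop
    -- no top is used uncountably often
    have hfib : ∀ i : I, ((X \ {0}) ∩ t ⁻¹' {i}).Countable := by
      intro i
      by_contra hi
      obtain ⟨a, ha⟩ := exists_fibre hi (fun x => B.repr x i)
      apply ha
      set Z := (X \ {0}) ∩ t ⁻¹' {i} ∩ (fun x => B.repr x i) ⁻¹' {a} with hZ
      have hZc : ((fun x : ℝ => x - a • B i) '' Z).Countable := by
        refine ih _ ?_ c ?_
        · rintro _ ⟨x, ⟨⟨⟨hxX, hx0⟩, hxi⟩, hxa⟩, rfl⟩
          have hx0' : x ≠ 0 := by simpa using hx0
          have hxi' : t x = i := hxi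
          have hxa' : B.repr x i = a := hxa
          have h1 := hXn x hxX
          have h2 : i ∈ (B.repr x).support := by
            rw [← hxi']; exact (ht x hx0').1
          have h3 : (B.repr (x - a • B i)).support ⊆ (B.repr x).support.erase i := by
            intro s hs
            rw [Finsupp.mem_support_iff, map_sub, map_smul, Module.Basis.repr_self,
              Finsupp.sub_apply, Finsupp.smul_apply] at hs
            have hsi : s ≠ i := by
              rintro rfl
              apply hs
              simp [hxa']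
            rw [Finset.mem_erase, Finsupp.mem_support_iff]
            refine ⟨hsi, ?_⟩
            rw [Finsupp.single_eq_of_ne hsi] at hs
            simpa using hs
          have h4 := Finset.card_le_card h3
          rw [Finset.card_erase_of_mem h2] at h4
          simp only
          omega
        · rintro _ ⟨x, hx, rfl⟩ _ ⟨y, hy, rfl⟩ hxy
          have hxy' : x ≠ y := by
            rintro rfl
            exact hxy rfl
          simp only [sub_sub_sub_cancel_right]
          exact hc x hx.1.1.1 y hy.1.1.1 hxy'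
      have hinj : Set.InjOn (fun x : ℝ => x - a • B i) Z := by
        intro x _ y _ hxy
        simpa using hxy
      exact Set.countable_of_injective_of_countable_image hinj hZc
    -- thin out so that `t` is injective
    obtain ⟨Y, hYX, hYinj, hYimg⟩ : ∃ Y ⊆ X \ {0}, Set.InjOn t Y ∧ t '' Y = t '' (X \ {0}) := by
      obtain ⟨Y, hYX, hY⟩ := (Set.surjOn_image t (X \ {0})).exists_bijOn_subset
      exact ⟨Y, hYX, hY.injOn, hY.image_eq⟩
    have hYunc : ¬ Y.Countable := by
      intro hY
      apply hX1
      have h1 : (t '' (X \ {0})).Countable := by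
        rw [← hYimg]; exact hY.image t
      have h2 : X \ {0} = ⋃ i ∈ t '' (X \ {0}), ((X \ {0}) ∩ t ⁻¹' {i}) := by
        ext x
        simp only [mem_iUnion, mem_inter_iff, mem_preimage, mem_singleton_iff, exists_prop]
        constructor
        · intro hx
          exact ⟨t x, mem_image_of_mem _ hx, hx, rfl⟩
        · rintro ⟨_, _, hx, _⟩
          exact hx
      rw [h2]
      exact h1.biUnion fun i _ => hfib i
    -- fix a rational ball
    choose q r hqr hqr' using fun x : ℝ => exists_ball (B.repr x).support (t x)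
    obtain ⟨⟨q₀, r₀⟩, hZ⟩ := exists_fibre hYunc (fun x => (q x, r x))
    set Z := Y ∩ (fun x => (q x, r x)) ⁻¹' {(q₀, r₀)} with hZdef
    have hZY : ∀ x ∈ Z, x ∈ Y := fun x hx => hx.1
    have hZX : ∀ x ∈ Z, x ∈ X := fun x hx => (hYX hx.1).1
    have hZ0 : ∀ x ∈ Z, x ≠ 0 := fun x hx => by simpa using (hYX hx.1).2
    have hZq : ∀ x ∈ Z, |(t x : ℝ) - q₀| < r₀ ∧
        ∀ u ∈ (B.repr x).support, u ≠ t x → 3 * (r₀ : ℝ) ≤ |(u : ℝ) - q₀| := by
      intro x hx
      have h1 : (q x, r x) = (q₀, r₀) := hx.2
      have h2 : q x = q₀ := congrArg Prod.fst h1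
      have h3 : r x = r₀ := congrArg Prod.snd h1
      rw [← h2, ← h3]
      exact ⟨hqr x, hqr' x⟩
    have hkey : ∀ x ∈ Z, ∀ y ∈ Z, R (t x) (t y) → (c = 1 ↔ (t x : ℝ) < t y) := by
      intro x hx y hy hxy
      have hne : x ≠ y := by
        rintro rfl
        exact irrefl_of R _ hxy
      have h1 := good_iff (ht x (hZ0 x hx)).1 (ht x (hZ0 x hx)).2 (ht y (hZ0 y hy)).1
        (ht y (hZ0 y hy)).2 hxy (hZq x hx).1 (hZq y hy).1 (hZq x hx).2 (hZq y hy).2
      rw [← h1, ← hc x (hZX x hx) y (hZX y hy) hne]
      unfold f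
      split_ifs with h
      · exact ⟨fun _ => h, fun _ => rfl⟩
      · exact ⟨fun h' => absurd h' (by decide), fun h' => absurd h' h⟩
    apply hZ
    -- the image in the reals
    have hinj : Set.InjOn (fun x => (t x : ℝ)) Z := by
      intro x hx y hy hxy
      exact hYinj (hZY x hx) (hZY y hy) (Subtype.ext hxy)
    refine Set.countable_of_injective_of_countable_image hinj ?_
    let r' : ℝ → ℝ → Prop := fun a b => ∃ (ha : a ∈ I) (hb : b ∈ I), R ⟨a, ha⟩ ⟨b, hb⟩
    have hwf : WellFounded r' := by
      have hRwf : WellFounded R := WellOrderingRel.isWellOrder.toIsWellFounded.wf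
      refine ⟨fun a => ?_⟩
      by_cases ha : a ∈ I
      · have key : ∀ i : I, Acc r' (i : ℝ) := by
          intro i
          induction i using hRwf.induction with
          | _ i ih =>
            refine ⟨_, ?_⟩
            rintro b ⟨hb, hi, hbi⟩
            exact ih ⟨b, hb⟩ hbi
        exact key ⟨a, ha⟩
      · refine ⟨_, ?_⟩
        rintro b ⟨hb, ha', _⟩
        exact absurd ha' ha
    by_cases hc1 : c = 1
    · refine countable_of_wf _ r' hwf ?_
      rintro _ ⟨x, hx, rfl⟩ _ ⟨y, hy, rfl⟩ hxy
      refine ⟨(t x).2, (t y).2, ?_⟩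
      rcases trichotomous_of R (t x) (t y) with h | h | h
      · exact h
      · exact absurd hxy (by simp [h])
      · have h1 := (hkey y hy x hx h).1 hc1
        have h2 : (t x : ℝ) < t y := hxy
        linarith
    · refine countable_of_wf' _ r' hwf ?_
      rintro _ ⟨x, hx, rfl⟩ _ ⟨y, hy, rfl⟩ hxy
      refine ⟨(t x).2, (t y).2, ?_⟩
      rcases trichotomous_of R (t x) (t y) with h | h | h
      · exact h
      · exact absurd hxy (by simp [h])
      · exact absurd ((hkey y hy x hx h).2 hxy) hc1

/-- **Result.** There is a colouring of the pairs of reals with two colours such that the colour of a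
pair depends only on its distance, and every monochromatic set is countable. -/
theorem result : ∃ χ : ℝ → ℝ → Fin 2,
    (∀ x y z t : ℝ, x ≠ y → z ≠ t → dist x y = dist z t → χ x y = χ z t) ∧
    ∀ X : Set ℝ, (∃ c : Fin 2, ∀ x ∈ X, ∀ y ∈ X, x ≠ y → χ x y = c) → X.Countable := by
  refine ⟨fun x y => f |x - y|, ?_, ?_⟩
  · intro x y z t _ _ h
    rw [Real.dist_eq, Real.dist_eq] at h
    simp only [h]
  · rintro X ⟨c, hc⟩
    have hX : X = ⋃ n : ℕ, X ∩ {x | (B.repr x).support.card ≤ n} := by
      ext x
      simp only [mem_iUnion, mem_inter_iff, mem_ofPred_eq]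
      constructor
      · intro hx
        exact ⟨_, hx, le_rfl⟩
      · rintro ⟨_, hx, _⟩
        exact hx
    rw [hX]
    refine Set.countable_iUnion fun n => main n _ (fun x hx => hx.2) c ?_
    intro x hx y hy hxy
    have := hc x hx.1 y hy.1 hxy
    simpa [f_abs] using this

end Pool.Agent.Results.MP_a23160_lc.IsometricColoring
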